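import Pool.Agent.U798.BV.Spec

set_option autoImplicit false

/-! Project BV, package ARCS: the indicator function of a finite union of arcs has bounded variation. -/

namespace Pool.Agent.U429.BV

open Set

/-- the indicator function of `S` has bounded variation on `[0, 1]` -/
def BS (S : Set ℝ) : Prop := BoundedVariationOn
  (fun t : ℝ => Set.indicator S (fun _ => (1 : ℝ)) t) (Set.Icc 0 1)

theorem BS_congr {S T : Set ℝ} (hS : BS S) (h : ∀ t ∈ Icc (0 : ℝ) 1, t ∈ S ↔ t ∈ T) : BS T := by
  classical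
  unfold BS BoundedVariationOn at *
  rw [eVariationOn.congr (g := fun t : ℝ => Set.indicator S (fun _ => (1 : ℝ)) t)]
  · exact hS
  · intro t ht
    have h1 := h t ht
    by_cases h2 : t ∈ S
    · simp [h2, h1.1 h2]
    · have h3 : t ∉ T := fun h3 => h2 (h1.2 h3)
      simp [h2, h3]

theorem BS_inter {S T : Set ℝ} (hS : BS S) (hT : BS T) : BS (S ∩ T) := by
  classical
  have h := BoundedVariationOn.mul hS hT
  unfold BS BoundedVariationOn at *
  rw [eVariationOn.congr (g := (fun t : ℝ => Set.indicator S (fun _ => (1 : ℝ)) t) *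
    (fun t : ℝ => Set.indicator T (fun _ => (1 : ℝ)) t))]
  · exact h
  · intro t _
    by_cases h1 : t ∈ S <;> by_cases h2 : t ∈ T <;> simp [h1, h2]

theorem BS_compl {S : Set ℝ} (hS : BS S) : BS Sᶜ := by
  classical
  have hL : LipschitzWith 1 (fun x : ℝ => 1 - x) := by
    apply LipschitzWith.of_dist_le_mul
    intro x y
    rw [Real.dist_eq, Real.dist_eq, NNReal.coe_one, one_mul]
    rw [show 1 - x - (1 - y) = -(x - y) by ring, abs_neg]
  have h := hL.comp_boundedVariationOn hS
  unfold BS BoundedVariationOn at *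
  rw [eVariationOn.congr (g := (fun x : ℝ => 1 - x) ∘
    (fun t : ℝ => Set.indicator S (fun _ => (1 : ℝ)) t))]
  · exact h
  · intro t _
    by_cases h1 : t ∈ S <;> simp [h1]

theorem BS_Ici (a : ℝ) : BS (Ici a) := by
  classical
  apply MonotoneOn.boundedVariationOn (C := 1)
  · intro x _ y _ hxy
    by_cases h1 : a ≤ x
    · have h2 : a ≤ y := h1.trans hxy
      simp [h1, h2]
    · by_cases h2 : a ≤ y <;> simp [h1, h2]
  · intro x _
    by_cases h1 : a ≤ x <;> simp [h1]

theorem BS_fract (a : ℝ) : BS {t : ℝ | a ≤ Int.fract t} := by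
  by_cases ha : a ≤ 0
  · refine BS_congr (BS_Ici 0) fun t ht => ?_
    simp only [mem_Ici, mem_ofPred_eq]
    exact ⟨fun _ => ha.trans (Int.fract_nonneg t), fun _ => ht.1⟩
  · refine BS_congr (BS_inter (BS_Ici a) (BS_compl (BS_Ici 1))) fun t ht => ?_
    simp only [mem_inter_iff, mem_compl_iff, mem_Ici, mem_ofPred_eq, not_le]
    by_cases h1 : t < 1
    · rw [Int.fract_eq_self.2 ⟨ht.1, h1⟩]
      exact ⟨fun h => h.1, fun h => ⟨h, h1⟩⟩
    · have h2 : t = 1 := le_antisymm ht.2 (not_lt.1 h1)
      subst h2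
      rw [Int.fract_one]
      constructor
      · intro h
        exact absurd h.2 h1
      · intro h
        exact absurd h ha

theorem BS_arc (a b : ℝ) : BS {t : ℝ | a ≤ Int.fract t ∧ Int.fract t < b} := by
  refine BS_congr (BS_inter (BS_fract a) (BS_compl (BS_fract b))) fun t _ => ?_
  simp only [mem_inter_iff, mem_compl_iff, mem_ofPred_eq, not_le]

theorem BS_empty : BS ∅ :=
  BS_congr (BS_Ici 2) fun t ht => by
    simp only [mem_Ici, mem_empty_iff_false, iff_false, not_le]
    exact lt_of_le_of_lt ht.2 (by norm_num)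

theorem BS_union {S T : Set ℝ} (hS : BS S) (hT : BS T) : BS (S ∪ T) := by
  have h := BS_compl (BS_inter (BS_compl hS) (BS_compl hT))
  rwa [compl_inter, compl_compl, compl_compl] at h

theorem BS_fin : ∀ (n : ℕ) (α β : Fin n → ℝ),
    BS {t : ℝ | ∃ i, α i ≤ Int.fract t ∧ Int.fract t < β i}
  | 0, α, β => BS_congr BS_empty fun t _ => by
      simp only [mem_empty_iff_false, mem_ofPred_eq, false_iff]
      rintro ⟨i, _⟩
      exact i.elim0
  | n + 1, α, β => by
      refine BS_congr (BS_union (BS_arc (α 0) (β 0))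
        (BS_fin n (fun i => α i.succ) (fun i => β i.succ))) fun t _ => ?_
      simp only [mem_union, mem_ofPred_eq]
      rw [Fin.exists_fin_succ]

theorem t_ARCS : Pool.Agent.U798.BV.S_ARCS := fun n α β => BS_fin n α β

end Pool.Agent.U429.BV
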